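import Pool.Agent.W207.PF.All

/-!
# The upper half of the strong pair correlation conjecture

On the Riemann hypothesis, suppose that `F(α, T) ≤ 1 + o(1)` uniformly for `1/2 ≤ α ≤ A`, for every
fixed `A` (for `1/2 ≤ α ≤ 1` this is known: `F(α, T) = α + o(1)` there).  Then `F(·, T) → 1` in the
mean on every bounded interval, `∫_1^A |F(α, T) - 1| dα → 0`, the pair correlation conjecture holds
(for all windows), and almost all zeros are simple.  All this holds along every sequence of heights.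

Idea of the proof.  Let `E` be the deviation of `F dα` from `min(|α|, 1) dα + δ_0`.  The Fejér mean
`∫ (1 - |a|/λ)_+ E([a - 1/2, a + 1/2]) da` is on the side of the zeros a sum of
`λ sinc²(λx) sin(πx)/(πx)` over the pairs of zeros; the pairs with `γ = γ'` contribute at least
`λ`, the others at least `-C/λ`, so the mean is at least `-C/λ`.  By Montgomery's theorem and the
hypothesis `E` is at most `o(1)` on intervals, so it tends to `0`.
-/

open Filter Topology

namespace Pool.Agent.Results.MP_00e05b_nt.UpperHalf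

/-- the multiplicity of `s` as a zero of the Riemann zeta function -/
noncomputable def mult (s : ℂ) : ℕ := analyticOrderNatAt riemannZeta s

/-- the nontrivial zeros of `ζ` with ordinate in `(0, T]` -/
def zeros (T : ℝ) : Set ℂ := {s : ℂ | riemannZeta s = 0 ∧ 0 < s.re ∧ s.re < 1 ∧ 0 < s.im ∧ s.im ≤ T}

/-- Montgomery's function
`F(α, T) = ((T/2π) log T)⁻¹ ∑_{0<γ,γ'≤T} T^{iα(γ-γ')} w(γ-γ')`, `w(u) = 4/(4+u²)` -/
noncomputable def F (T α : ℝ) : ℂ :=
  (∑ᶠ s ∈ zeros T, ∑ᶠ s' ∈ zeros T, ((mult s : ℂ) * (mult s' : ℂ)) *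
    ((T : ℂ) ^ (Complex.I * (α : ℂ) * ((s.im - s'.im : ℝ) : ℂ)) *
      ((4 / (4 + (s.im - s'.im) ^ 2) : ℝ) : ℂ))) / ((T / (2 * Real.pi) * Real.log T : ℝ) : ℂ)

/-- the set of zeros is finite -/
theorem finite_zeros (T : ℝ) : (zeros T).Finite := W207.PR.Zs_finite T

/-- `F` is real and nonnegative -/
theorem F_real {T : ℝ} (hT : 10 ≤ T) (α : ℝ) : (F T α).im = 0 ∧ 0 ≤ (F T α).re := by
  have h : F T α = (W207.PF.FF T α : ℂ) := W207.PF.FM_eq W207.PF.fd hT α
  rw [h]
  exact ⟨Complex.ofReal_im _, by rw [Complex.ofReal_re]; exact (W207.PF.inpF.pos T hT).2.2 α⟩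

/-- the number of ordered pairs of zeros (with multiplicity, the diagonal included) with ordinates in
`(0, T]` whose difference lies in `[2πα / log T, 2πβ / log T]` -/
noncomputable def N (T α β : ℝ) : ℕ :=
  ∑ᶠ s ∈ zeros T, ∑ᶠ s' ∈ {s' : ℂ | s' ∈ zeros T ∧
    2 * Real.pi * α / Real.log T ≤ s.im - s'.im ∧ s.im - s'.im ≤ 2 * Real.pi * β / Real.log T},
      mult s * mult s'

/-- the predicted count -/
noncomputable def pred (α β : ℝ) : ℝ :=
  (∫ u in α..β, (1 - (Real.sin (Real.pi * u) / (Real.pi * u)) ^ 2)) + if α ≤ 0 ∧ 0 ≤ β then 1 else 0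

/-- **The upper half of the strong pair correlation conjecture gives the conjecture in the mean.**
On RH, along every countably generated filter `l ≤ atTop` (for instance `l = atTop`, or a sequence
of heights): if for every `A > 1` and `ε > 0` eventually `F(α, T) ≤ 1 + ε` for all `α` in
`[1/2, A]`, then `∫_1^A |F(α, T) - 1| dα → 0` for every `A > 1`, and the pair correlation conjecture
holds: `N(T; α, β) / ((T/2π) log T) → pred α β` for all `α < β`. -/
theorem result (hRH : RiemannHypothesis) (l : Filter ℝ) [l.IsCountablyGenerated] (hl : l ≤ atTop)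
    (hU : ∀ A : ℝ, 1 < A → ∀ ε : ℝ, 0 < ε → ∀ᶠ T in l,
      ∀ α : ℝ, 1 / 2 ≤ α → α ≤ A → (F T α).re ≤ 1 + ε) :
    (∀ A : ℝ, 1 < A → Tendsto (fun T => ∫ α in (1 : ℝ)..A, ‖F T α - 1‖) l (𝓝 0)) ∧
    ∀ α β : ℝ, α < β →
      Tendsto (fun T => (N T α β : ℝ) / (T / (2 * Real.pi) * Real.log T)) l (𝓝 (pred α β)) :=
  W207.PF.finRH hRH W207.PU.inp W207.PF.inpF W207.PF.br W207.PF.fd l hl hU

end Pool.Agent.Results.MP_00e05b_nt.UpperHalf
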